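import Mathlib
import Pool.Agent.H411Z.HM.Defs
import Pool.Agent.H411Z.HM.NonUniq

set_option autoImplicit false

open Pool.Agent.H411Z.HM

/-- Let `n = m + 2 ≥ 2` and `p > n`. There is a bounded connected open set `Ω` in `ℝ^n` with two
extremals `u`, `v` of the Hardy-Morrey inequality such that `v` is not of the form `c (u ∘ T)` with
`c ≠ 0` and `T x = r Q x + b` a similarity mapping `Ω` onto itself. -/
theorem Pool.Agent.Results.MP_e9cdae_an.NonUnique.result (m : ℕ) (p : ℝ)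
    (hp : ((m + 2 : ℕ) : ℝ) < p) :
    ∃ Ω : Set (E (m + 2)), IsOpen Ω ∧ IsConnected Ω ∧ Bornology.IsBounded Ω ∧ Ω ≠ Set.univ ∧
      ∃ u v : E (m + 2) → ℝ, IsExtremal p Ω u ∧ IsExtremal p Ω v ∧
        ∀ (c r : ℝ) (Q : E (m + 2) ≃ₗᵢ[ℝ] E (m + 2)) (b : E (m + 2)), c ≠ 0 → 0 < r →
          (fun x => r • Q x + b) '' Ω = Ω → v ≠ fun x => c * u (r • Q x + b) :=
  non_unique m hp
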